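import Pool.Agent.Helper35.PQF.St

/-! Module DP1 of project PQF: invariance of the displacement. -/

open Filter Topology Matrix Set MeasureTheory
open scoped ENNReal ComplexOrder

namespace Pool.Agent.Helper13.PM

open Pool.Agent.Helper35.PM

/-- cyclic invariance in a ring with a trace -/
theorem ring_aux {R : Type*} [Ring R] (b c a q qi bs cs as : R) (h1 : c * b = 1)
    (h3 : bs * cs = 1) :
    cs * (qi * c) * (b * a * c) * (b * q * bs) * (cs * (as * bs)) =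
      cs * (qi * a * q * as * bs) := by
  have e : cs * (qi * c) * (b * a * c) * (b * q * bs) * (cs * (as * bs)) =
      cs * (qi * (c * b) * a * (c * b) * q * (bs * cs) * as * bs) := by
    simp only [mul_assoc]
  rw [e, h1, h3]
  simp only [mul_one]

theorem disp_conj_mat (b c a q : Mat) (h1 : c * b = 1) (h2 : b * c = 1) :
    disp (b * a * c) (b * q * bᴴ) = disp a q := by
  have hb : b⁻¹ = c := Matrix.inv_eq_right_inv h2
  have h3 : bᴴ * cᴴ = 1 := by rw [← conjTranspose_mul, h1, conjTranspose_one]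
  have hs : (bᴴ)⁻¹ = cᴴ := Matrix.inv_eq_right_inv h3
  have h4 : (b * q * bᴴ)⁻¹ = cᴴ * (q⁻¹ * c) := by
    rw [Matrix.mul_inv_rev, Matrix.mul_inv_rev, hb, hs]
  have h5 : (b * a * c)ᴴ = cᴴ * (aᴴ * bᴴ) := by
    rw [conjTranspose_mul, conjTranspose_mul]
  have h6 : (b * q * bᴴ)⁻¹ * (b * a * c) * (b * q * bᴴ) * (b * a * c)ᴴ =
      cᴴ * (q⁻¹ * a * q * aᴴ * bᴴ) := by
    rw [h4, h5]
    exact ring_aux b c a q q⁻¹ bᴴ cᴴ aᴴ h1 h3
  have h7 : (cᴴ * (q⁻¹ * a * q * aᴴ * bᴴ)).trace = (q⁻¹ * a * q * aᴴ).trace := by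
    have h8 : (q⁻¹ * a * q * aᴴ * bᴴ) * cᴴ = q⁻¹ * a * q * aᴴ := by
      rw [Matrix.mul_assoc (q⁻¹ * a * q * aᴴ), h3, Matrix.mul_one]
    rw [Matrix.trace_mul_comm, h8]
  change ((b * q * bᴴ)⁻¹ * (b * a * c) * (b * q * bᴴ) * (b * a * c)ᴴ).trace.re =
    (q⁻¹ * a * q * aᴴ).trace.re
  rw [h6, h7]

theorem disp_conj (A B : SL) (Q : Mat) :
    disp ((B * A * B⁻¹ : SL) : Mat) ((B : Mat) * Q * (B : Mat)ᴴ) = disp (A : Mat) Q :=
  disp_conj_mat (B : Mat) ((B⁻¹ : SL) : Mat) (A : Mat) Q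
    (congrArg Subtype.val (inv_mul_cancel B)) (congrArg Subtype.val (mul_inv_cancel B))

theorem posDef_conj (B : SL) (Q : Mat) (hQ : Q.PosDef) :
    ((B : Mat) * Q * (B : Mat)ᴴ).PosDef := by
  apply hQ.mul_mul_conjTranspose_same
  have h : IsUnit (B : Mat) := (Matrix.isUnit_iff_isUnit_det _).mpr (by
    have h1 : Matrix.det (B : Mat) = 1 := B.2
    rw [h1]
    exact isUnit_one)
  exact Matrix.vecMul_injective_iff_isUnit.mpr h

theorem trace_pos' (Q : Mat) (hQ : Q.PosDef) : 0 < Q.trace := hQ.trace_pos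

theorem density_posDef (Q : Mat) (hQ : Q.PosDef) : (density Q).PosDef := by
  unfold density
  exact hQ.smul (inv_pos.mpr (trace_pos' Q hQ))

theorem density_trace (Q : Mat) (hQ : Q.PosDef) : (density Q).trace = 1 := by
  unfold density
  rw [Matrix.trace_smul, smul_eq_mul, inv_mul_cancel₀ (trace_pos' Q hQ).ne']

theorem disp_smul (A Q : Mat) (hQ : Q.PosDef) (c : ℂ) (hc : c ≠ 0) :
    disp A (c • Q) = disp A Q := by
  have hu : IsUnit Q.det := (Matrix.isUnit_iff_isUnit_det Q).mp hQ.isUnit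
  have h1 : (c • Q)⁻¹ = c⁻¹ • Q⁻¹ := by
    apply Matrix.inv_eq_right_inv
    rw [Matrix.smul_mul, Matrix.mul_smul, smul_smul, mul_inv_cancel₀ hc, one_smul,
      Matrix.mul_nonsing_inv Q hu]
  have h2 : (c • Q)⁻¹ * A * (c • Q) * Aᴴ = Q⁻¹ * A * Q * Aᴴ := by
    rw [h1, Matrix.smul_mul, Matrix.mul_smul, Matrix.smul_mul, Matrix.smul_mul, Matrix.smul_mul,
      smul_smul, mul_inv_cancel₀ hc, one_smul]
  unfold disp
  rw [h2]

/-- MODULE DP1. -/
theorem dp1 : St_DP1 := by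
  refine ⟨fun A B Q _ => disp_conj A B Q, fun A Q hQ => ?_, posDef_conj, fun Q hQ =>
    ⟨density_posDef Q hQ, density_trace Q hQ⟩⟩
  exact disp_smul A Q hQ _ (inv_ne_zero (trace_pos' Q hQ).ne')

end Pool.Agent.Helper13.PM
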