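import Pool.Agent.Helper35.PQF.St3

set_option autoImplicit false

/-!
# Project PQF, module SY: symmetry and triangle inequality of the pressure distance
-/

open Filter Topology Matrix Set MeasureTheory
open scoped ENNReal ComplexOrder

namespace Pool.Agent.Helper13.PM

open Pool.Agent.Helper35.PM

variable {Γ : Type} [Group Γ]

theorem speedSq_rev (U : (Γ →* SL) → Ultrafilter ℝ) (c : ℝ → Γ →* SL) (m t : ℝ) :
    speedSq U (fun s => c (m - s)) t = speedSq U c (m - t) := by
  unfold speedSq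
  congr 1
  funext δ
  have e1 : m - (t + δ) = m - t - δ := by ring
  have e2 : m - (t - δ) = m - t + δ := by ring
  beta_reduce
  rw [e1, e2, add_comm (J (U (c (m - t))) (c (m - t)) (c (m - t - δ)))]

theorem lengthLE_rev {U : (Γ →* SL) → Ultrafilter ℝ} {c : ℝ → Γ →* SL} {a b : ℝ} {B : ℝ≥0∞}
    (h : LengthLE U c a b B) : LengthLE U (fun s => c (a + b - s)) a b B := by
  obtain ⟨q, hqm, hq, hint⟩ := h
  have hmem : ∀ t : ℝ, a + b - t ∈ Ioo a b ↔ t ∈ Ioo a b := by
    intro t
    simp only [mem_Ioo]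
    constructor
    · rintro ⟨h1, h2⟩
      exact ⟨by linarith, by linarith⟩
    · rintro ⟨h1, h2⟩
      exact ⟨by linarith, by linarith⟩
  refine ⟨fun t => q (a + b - t), hqm.comp (measurable_const.sub measurable_id), ?_, ?_⟩
  · intro t ht
    rw [speedSq_rev]
    exact hq _ ((hmem t).2 ht)
  · have e : ∫⁻ t in Ioo a b, q (a + b - t) = ∫⁻ t in Ioo a b, q t := by
      rw [← lintegral_indicator measurableSet_Ioo, ← lintegral_indicator measurableSet_Ioo,
        ← lintegral_sub_left_eq_self (fun t => (Ioo a b).indicator q t) (a + b)]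
      refine lintegral_congr fun t => ?_
      by_cases ht : t ∈ Ioo a b
      · rw [indicator_of_mem ht, indicator_of_mem ((hmem t).2 ht)]
      · rw [indicator_of_notMem ht, indicator_of_notMem (fun h => ht ((hmem t).1 h))]
    rw [e]
    exact hint

theorem smooth_rev {c : ℝ → Γ →* SL} {a b : ℝ} (h : SmoothPath c a b) :
    SmoothPath (fun s => c (a + b - s)) a b := by
  have hmem : ∀ t ∈ Icc a b, a + b - t ∈ Icc a b := by
    intro t ht
    exact ⟨by linarith [ht.2], by linarith [ht.1]⟩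
  refine ⟨fun γ i j => ?_, fun t ht => h.2 _ (hmem t ht)⟩
  have h1 : ContDiffOn ℝ ((⊤ : ℕ∞) : WithTop ℕ∞) (fun t : ℝ => a + b - t) (Icc a b) :=
    (contDiff_const.sub contDiff_id).contDiffOn
  exact (h.1 γ i j).comp h1 hmem

theorem conj_symm {ρ σ : Γ →* SL} {B : SL}
    (h : ∀ γ, (σ γ : Mat) = ((B * ρ γ * B⁻¹ : SL) : Mat) ∨
        (σ γ : Mat) = -((B * ρ γ * B⁻¹ : SL) : Mat)) (γ : Γ) :
    (ρ γ : Mat) = ((B⁻¹ * σ γ * B⁻¹⁻¹ : SL) : Mat) ∨
        (ρ γ : Mat) = -((B⁻¹ * σ γ * B⁻¹⁻¹ : SL) : Mat) := by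
  rcases h γ with h | h
  · left
    have h1 : σ γ = B * ρ γ * B⁻¹ := Subtype.ext h
    rw [h1]
    congr 1
    group
  · right
    have h1 : σ γ = -(B * ρ γ * B⁻¹) := by
      apply Subtype.ext
      rw [h]
      exact (Matrix.SpecialLinearGroup.coe_neg _).symm
    have h2 : ρ γ = -(B⁻¹ * σ γ * B⁻¹⁻¹) := by
      rw [h1, mul_neg, neg_mul, neg_neg]
      group
    rw [← Matrix.SpecialLinearGroup.coe_neg, ← h2]

theorem pressureLE_symm {U : (Γ →* SL) → Ultrafilter ℝ} {ρ σ : Γ →* SL} {B : ℝ≥0∞}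
    (h : PressureLE U ρ σ B) : PressureLE U σ ρ B := by
  induction h with
  | conj ρ σ B h => exact PressureLE.conj σ ρ B⁻¹ (conj_symm h)
  | path c a b B hab hc hB =>
    have h1 := PressureLE.path (U := U) (fun s => c (a + b - s)) a b B hab (smooth_rev hc)
      (lengthLE_rev hB)
    have e1 : a + b - a = b := by ring
    have e2 : a + b - b = a := by ring
    simp only [e1, e2] at h1
    exact h1
  | trans ρ σ τ B B' _ _ ih ih' =>
    rw [add_comm]
    exact PressureLE.trans _ _ _ _ _ ih' ih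

theorem sy : St_SY := by
  intro Γ _ U
  refine ⟨fun ρ σ => ?_, fun ρ σ τ => ?_⟩
  · unfold pressureDist
    congr 1
    ext B
    exact ⟨pressureLE_symm, pressureLE_symm⟩
  · have h1 : ∀ B, PressureLE U σ τ B → pressureDist U ρ τ ≤ pressureDist U ρ σ + B := by
      intro B h
      unfold pressureDist
      rw [← tsub_le_iff_right]
      refine le_sInf fun B' hB' => ?_
      rw [tsub_le_iff_right]
      exact sInf_le (PressureLE.trans ρ σ τ B' B hB' h)
    rw [← tsub_le_iff_left]
    exact le_sInf fun B hB => tsub_le_iff_left.2 (h1 B hB)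

end Pool.Agent.Helper13.PM
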